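import Pool.Agent.K3h53.UG.Stm5

/-!
# The dimension count for a variety over a variety of dimension `s` (brick FIB6 for helper53)
-/

set_option autoImplicit false
set_option linter.style.haveILetI false

namespace Pool.Agent.K3h23.UG

open MvPolynomial Set Pool.Agent.K3h53.UG

/-- the names of the variables: `y_i`, the `y_(κ b)` and the `x_j`, `j ∈ K` -/
def nm6 {n r : ℕ} (K : Finset (Fin n)) (κ : Fin r → Fin n) (i : Fin n) :
    Option (Fin r ⊕ {j : Fin n // j ∈ K}) → Fin n ⊕ Fin n
  | none => Sum.inr i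
  | some (Sum.inl b) => Sum.inr (κ b)
  | some (Sum.inr j) => Sum.inl j.1

theorem nm6_inj {n r : ℕ} {K : Finset (Fin n)} {κ : Fin r → Fin n} {i : Fin n}
    (hκ : Function.Injective κ) (h : ∀ b, κ b ≠ i) : Function.Injective (nm6 K κ i) := by
  rintro (_ | a | ⟨a, ha⟩) (_ | b | ⟨b, hb⟩) hab
  · rfl
  · exact absurd (Sum.inr_injective hab).symm (h b)
  · exact absurd hab (by simp [nm6])
  · exact absurd (Sum.inr_injective hab) (h a)
  · have : a = b := hκ (Sum.inr_injective hab)
    rw [this]
  · exact absurd hab (by simp [nm6])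
  · exact absurd hab (by simp [nm6])
  · exact absurd hab (by simp [nm6])
  · have : a = b := Sum.inl_injective hab
    subst this
    rfl

/-- the polynomial in one variable over `ℂ[x][y]` -/
noncomputable def tw {n : ℕ} (r : ℕ) (K : Finset (Fin n)) :
    MvPolynomial (Option (Fin r ⊕ {j : Fin n // j ∈ K})) ℂ →+*
      Polynomial (MvPolynomial (Fin r) (MvPolynomial (Fin n) ℂ)) :=
  (Polynomial.mapRingHom ((MvPolynomial.map
      (rename (Subtype.val : {j : Fin n // j ∈ K} → Fin n)).toRingHom).comp
      (sumAlgEquiv ℂ (Fin r) {j : Fin n // j ∈ K}).toRingHom)).comp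
    (optionEquivLeft ℂ (Fin r ⊕ {j : Fin n // j ∈ K})).toRingHom

theorem tw_eval {n r : ℕ} (K : Finset (Fin n)) (κ : Fin r → Fin n) (i : Fin n)
    (f : MvPolynomial (Option (Fin r ⊕ {j : Fin n // j ∈ K})) ℂ) :
    (tw r K f).eval₂ (yev κ) (X (Sum.inr i)) = rename (nm6 K κ i) f := by
  have h : (Polynomial.eval₂RingHom (yev κ) (X (Sum.inr i))).comp (tw r K) =
      ((rename (nm6 K κ i) : _ →ₐ[ℂ] MvPolynomial (Fin n ⊕ Fin n) ℂ) : _ →+* _) := by
    refine MvPolynomial.ringHom_ext (fun c => ?_) ?_
    · simp [tw, yev]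
    · rintro (_ | b | ⟨j, hj⟩)
      · simp [tw, nm6]
      · simp [tw, nm6, yev]
      · simp [tw, nm6, yev]
  exact congrArg (fun g => g f) h

theorem tw_coeff {n r : ℕ} (K : Finset (Fin n))
    {f : MvPolynomial (Option (Fin r ⊕ {j : Fin n // j ∈ K})) ℂ} (hf : f ≠ 0) :
    ∃ (a : ℕ) (m : Fin r →₀ ℕ) (c : MvPolynomial {j : Fin n // j ∈ K} ℂ), c ≠ 0 ∧
      coeff m ((tw r K f).coeff a) = rename Subtype.val c := by
  have h1 : optionEquivLeft ℂ (Fin r ⊕ {j : Fin n // j ∈ K}) f ≠ 0 := by
    intro h
    exact hf ((map_eq_zero_iff _ (AlgEquiv.injective _)).1 h)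
  obtain ⟨a, ha⟩ : ∃ a, (optionEquivLeft ℂ (Fin r ⊕ {j : Fin n // j ∈ K}) f).coeff a ≠ 0 := by
    by_contra hcon
    push Not at hcon
    exact h1 (Polynomial.ext fun a => by rw [hcon a, Polynomial.coeff_zero])
  have h2 : sumAlgEquiv ℂ (Fin r) {j : Fin n // j ∈ K}
      ((optionEquivLeft ℂ (Fin r ⊕ {j : Fin n // j ∈ K}) f).coeff a) ≠ 0 := by
    intro h
    exact ha ((map_eq_zero_iff _ (AlgEquiv.injective _)).1 h)
  obtain ⟨m, hm⟩ := MvPolynomial.ne_zero_iff.1 h2
  refine ⟨a, m, _, hm, ?_⟩
  simp [tw, Polynomial.coeff_map, MvPolynomial.coeff_map]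

theorem coeff_of_indep {R A B σ : Type} [CommRing R] [CommRing A] [Algebra R A] [CommRing B]
    {y : σ → A} (hy : AlgebraicIndependent R y) (ψ : B →+* R) (g : MvPolynomial σ B)
    (h : eval₂ ((algebraMap R A).comp ψ) y g = 0) (m : σ →₀ ℕ) : ψ (coeff m g) = 0 := by
  have h1 : aeval y (MvPolynomial.map ψ g) = 0 := by
    rw [aeval_def, eval₂_map]
    exact h
  have h2 := (algebraicIndependent_iff.1 hy) _ h1
  have h3 := congrArg (coeff m) h2
  rwa [coeff_map, coeff_zero] at h3

theorem coeff_of_indep' {A B σ : Type} [CommRing A] [IsDomain A] [Algebra ℂ A] [CommRing B]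
    (D : Subalgebra ℂ A) {y : σ → A} (hy : AlgebraicIndependent D y) (ρ : B →+* A)
    (hρ : ∀ b, IsAlgebraic D (ρ b)) (g : MvPolynomial σ B)
    (h : eval₂ ρ y g = 0) (m : σ →₀ ℕ) : ρ (coeff m g) = 0 := by
  have hy' := hy.subalgebraAlgebraicClosure
  obtain ⟨ψ, hψ⟩ : ∃ ψ : B →+* Subalgebra.algebraicClosure D A,
      (algebraMap (Subalgebra.algebraicClosure D A) A).comp ψ = ρ :=
    ⟨ρ.codRestrict (Subalgebra.algebraicClosure D A) hρ, rfl⟩
  have h1 := coeff_of_indep hy' ψ g (by rw [hψ]; exact h) m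
  rw [← hψ, RingHom.comp_apply, h1, map_zero]

theorem t_FIB6 : S_FIB6 := by
  classical
  intro n s r hn P hP hK hK2 hL hL2
  haveI := hP
  obtain ⟨φ, hφ⟩ : ∃ φ : MvPolynomial (Fin n) ℂ →ₐ[ℂ]
      MvPolynomial (Fin n ⊕ Fin n) ℂ, φ = rename Sum.inl := ⟨_, rfl⟩
  obtain ⟨L, hLc, hLi⟩ := hL
  refine ⟨?_, ?_⟩
  · -- the coordinate ring
    obtain ⟨z, hz⟩ : ∃ z : Fin n ⊕ Fin n →
        (MvPolynomial (Fin n ⊕ Fin n) ℂ ⧸ P), z = fun c => Ideal.Quotient.mk P (X c) :=
      ⟨_, rfl⟩
    have haev : ∀ f, aeval z f = Ideal.Quotient.mk P f := by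
      intro f
      have h1 : (aeval z : _ →ₐ[ℂ] _) = Ideal.Quotient.mkₐ ℂ P := by
        refine MvPolynomial.algHom_ext fun c => ?_
        rw [aeval_X, hz]
        rfl
      rw [h1]
      rfl
    have haev0 : ∀ f, aeval z f = 0 ↔ f ∈ P := by
      intro f
      rw [haev, Ideal.Quotient.eq_zero_iff_mem]
    -- independence
    have hind : ∀ J : Finset (Fin n ⊕ Fin n),
        AlgebraicIndepOn ℂ z (J : Set _) ↔ ∀ f : MvPolynomial (Fin n ⊕ Fin n) ℂ,
          f.vars ⊆ J → f ∈ P → f = 0 := by
      intro J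
      unfold AlgebraicIndepOn
      rw [algebraicIndependent_iff]
      constructor
      · intro h f hf hfP
        obtain ⟨g, rfl⟩ := exists_rename_eq_of_vars_subset_range f
          (Subtype.val : ↥(J : Set (Fin n ⊕ Fin n)) → _) Subtype.val_injective
          (by rw [Subtype.range_coe]; exact_mod_cast hf)
        rw [← haev0, aeval_rename] at hfP
        rw [h g hfP, map_zero]
      · intro h g hg
        have h1 : rename (Subtype.val : ↥(J : Set (Fin n ⊕ Fin n)) → _) g = 0 := by
          refine h _ ?_ ?_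
          · refine (vars_rename _ _).trans ?_
            intro c hc
            rw [Finset.mem_image] at hc
            obtain ⟨d, -, rfl⟩ := hc
            exact d.2
          · rw [← haev0, aeval_rename]
            exact hg
        exact (rename_injective _ Subtype.val_injective) (h1.trans (map_zero _).symm)
    -- the coordinates `x_j`, `j ∈ L`
    obtain ⟨S, hS⟩ : ∃ S : Finset (Fin n ⊕ Fin n), S = L.image Sum.inl := ⟨_, rfl⟩
    have hmemS : ∀ c, c ∈ S ↔ ∃ j, j ∈ L ∧ c = Sum.inl j := by
      intro c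
      rw [hS, Finset.mem_image]
      constructor
      · rintro ⟨j, hj, rfl⟩
        exact ⟨j, hj, rfl⟩
      · rintro ⟨j, hj, rfl⟩
        exact ⟨j, hj, rfl⟩
    have hcardS : S.card = s := by
      rw [hS, Finset.card_image_of_injective _ Sum.inl_injective, hLc]
    have hinl : ∀ G : MvPolynomial (Fin n) ℂ, (φ G).vars ⊆ S → G.vars ⊆ L := by
      intro G hG j hj
      have h1 : (Sum.inl j : Fin n ⊕ Fin n) ∈ (φ G).vars := by
        rw [hφ]
        rw [mem_vars_iff_degreeOf_ne_zero] at hj ⊢
        rwa [degreeOf_rename_of_injective Sum.inl_injective]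
      obtain ⟨j', hj', h2⟩ := (hmemS _).1 (hG h1)
      rwa [Sum.inl_injective h2]
    have hSind : AlgebraicIndepOn ℂ z (S : Set _) := by
      rw [hind]
      intro f hf hfP
      obtain ⟨G, rfl⟩ := exists_rename_eq_of_vars_subset_range f
        (Sum.inl : Fin n → Fin n ⊕ Fin n) Sum.inl_injective (by
          intro c hc
          obtain ⟨j, -, rfl⟩ := (hmemS c).1 (hf hc)
          exact ⟨j, rfl⟩)
      rw [← hφ] at hf
      rw [hLi G (hinl G hf) hfP, map_zero]
    have halgx : ∀ j, IsAlgebraic (Algebra.adjoin ℂ (z '' (S : Set _))) (z (Sum.inl j)) := by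
      intro j
      by_cases hj : j ∈ L
      · exact isAlgebraic_algebraMap (⟨z (Sum.inl j), Algebra.subset_adjoin
          ⟨Sum.inl j, (hmemS _).2 ⟨j, hj, rfl⟩, rfl⟩⟩ : Algebra.adjoin ℂ (z '' (S : Set _)))
      · by_contra htr
        have h1 := AlgebraicIndepOn.insert hSind htr
        have h2 : AlgebraicIndepOn ℂ z ((insert (Sum.inl j) S : Finset _) : Set _) := by
          rw [Finset.coe_insert]
          exact h1
        rw [hind] at h2
        obtain ⟨G, hG1, hG2, hG3⟩ := hL2 (insert j L) (by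
          rw [Finset.card_insert_of_notMem hj, hLc])
        have h3 : φ G = 0 := by
          refine h2 _ ?_ (by rw [hφ]; exact hG1)
          rw [hφ]
          refine (vars_rename _ _).trans ?_
          intro c hc
          obtain ⟨j', hj', rfl⟩ := Finset.mem_image.1 hc
          rw [Finset.mem_insert]
          rcases Finset.mem_insert.1 (hG3 hj') with h | h
          · left; rw [h]
          · right
            exact (hmemS _).2 ⟨j', h, rfl⟩
        rw [hφ] at h3
        exact hG2 (rename_injective _ Sum.inl_injective (h3.trans (map_zero _).symm))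
    -- a maximal set of independent `y`
    obtain ⟨T, hT⟩ : ∃ T : Finset (Finset (Fin n)), T = Finset.univ.filter (fun B =>
        AlgebraicIndepOn ℂ z ((S ∪ B.image Sum.inr : Finset _) : Set _)) := ⟨_, rfl⟩
    have hTm : ∀ B, B ∈ T ↔
        AlgebraicIndepOn ℂ z ((S ∪ B.image Sum.inr : Finset _) : Set _) := by
      intro B
      rw [hT, Finset.mem_filter]
      exact ⟨fun h => h.2, fun h => ⟨Finset.mem_univ _, h⟩⟩
    obtain ⟨B, hBT, hBmax⟩ := T.exists_max_image Finset.card ⟨∅, by
      rw [hTm, Finset.image_empty, Finset.union_empty]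
      exact hSind⟩
    rw [hTm] at hBT
    obtain ⟨J, hJ⟩ : ∃ J : Finset (Fin n ⊕ Fin n), J = S ∪ B.image Sum.inr := ⟨_, rfl⟩
    rw [← hJ] at hBT
    have hJc : J.card = s + B.card := by
      rw [hJ, Finset.card_union_of_disjoint, hcardS,
        Finset.card_image_of_injective _ Sum.inr_injective]
      rw [Finset.disjoint_left]
      intro c hc hc'
      obtain ⟨j, -, rfl⟩ := (hmemS _).1 hc
      obtain ⟨k, -, hk⟩ := Finset.mem_image.1 hc'
      exact absurd hk (by simp)
    have hSJ : z '' (S : Set _) ⊆ z '' (J : Set _) := by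
      refine image_mono ?_
      intro c hc
      rw [hJ]
      exact Finset.mem_coe.2 (Finset.mem_union_left _ (Finset.mem_coe.1 hc))
    have halgJx : ∀ j, IsAlgebraic (Algebra.adjoin ℂ (z '' (J : Set _))) (z (Sum.inl j)) := by
      intro j
      exact (halgx j).adjoin_of_forall_isAlgebraic (fun a ha => by
        exact absurd (hSJ ha.1) ha.2)
    have halgJy : ∀ k, IsAlgebraic (Algebra.adjoin ℂ (z '' (J : Set _))) (z (Sum.inr k)) := by
      intro k
      by_cases hk : k ∈ B
      · refine isAlgebraic_algebraMap (⟨z (Sum.inr k), Algebra.subset_adjoin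
          ⟨Sum.inr k, ?_, rfl⟩⟩ : Algebra.adjoin ℂ (z '' (J : Set _)))
        rw [hJ]
        exact Finset.mem_coe.2 (Finset.mem_union_right _ (Finset.mem_image_of_mem _ hk))
      · by_contra htr
        have h1 := AlgebraicIndepOn.insert hBT htr
        have h2 : insert k B ∈ T := by
          rw [hTm]
          have h3 : ((S ∪ (insert k B).image Sum.inr : Finset (Fin n ⊕ Fin n)) : Set _) =
              insert (Sum.inr k) (J : Set (Fin n ⊕ Fin n)) := by
            rw [hJ, Finset.image_insert, Finset.union_insert, Finset.coe_insert]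
          rw [h3]
          exact h1
        have h3 := hBmax _ h2
        rw [Finset.card_insert_of_notMem hk] at h3
        omega
    have hall : Algebra.IsAlgebraic (Algebra.adjoin ℂ (z '' (J : Set _)))
        (MvPolynomial (Fin n ⊕ Fin n) ℂ ⧸ P) := by
      constructor
      intro a
      refine IsAlgebraic.adjoin_of_forall_isAlgebraic (R := ℂ) (s := range z) ?_ ?_
      · rintro _ ⟨⟨c, rfl⟩, -⟩
        rcases c with j | k
        · exact halgJx j
        · exact halgJy k
      · have hmem : a ∈ Algebra.adjoin ℂ (range z) := by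
          obtain ⟨f, rfl⟩ := Ideal.Quotient.mk_surjective a
          rw [← haev, Algebra.adjoin_range_eq_range_aeval]
          exact ⟨f, rfl⟩
        exact isAlgebraic_algebraMap (⟨a, hmem⟩ : Algebra.adjoin ℂ (range z))
    have hge : n ≤ J.card := by
      have h1 := Algebra.IsAlgebraic.trdeg_le_cardinalMk ℂ (z '' (J : Set _))
      obtain ⟨K, hKc, hKi⟩ := hK
      have hKi' : AlgebraicIndepOn ℂ z (K : Set _) := by
        rw [hind]
        exact hKi
      have h2 := AlgebraicIndependent.cardinalMk_le_trdeg hKi'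
      have h3 := h2.trans h1
      have h4 : Cardinal.mk (z '' (J : Set (Fin n ⊕ Fin n))) ≤ (J.card : Cardinal) := by
        refine Cardinal.mk_image_le.trans ?_
        rw [Finset.coe_sort_coe, Cardinal.mk_coe_finset]
      have h5 := h3.trans h4
      rw [Finset.coe_sort_coe, Cardinal.mk_coe_finset, hKc] at h5
      exact Nat.cast_le.1 h5
    have hle : J.card ≤ n := by
      by_contra hcon
      obtain ⟨K', hK'J, hK'c⟩ := Finset.exists_subset_card_eq (show n + 1 ≤ J.card by omega)
      obtain ⟨G, hG1, hG2, hG3⟩ := hK2 K' hK'c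
      exact hG2 ((hind J).1 hBT G (hG3.trans hK'J) hG1)
    have hBc : B.card = r := by omega
    have hBcc : Bᶜ.card = s := by
      rw [Finset.card_compl, Fintype.card_fin]
      omega
    have hBccc : Bᶜᶜ.card = r := by rw [compl_compl, hBc]
    refine ⟨finSumEquivOfFinset hBcc hBccc, ?_⟩
    obtain ⟨κ, hκ⟩ : ∃ κ : Fin r → Fin n,
        κ = fun b => finSumEquivOfFinset hBcc hBccc (Sum.inr b) := ⟨_, rfl⟩
    rw [← hκ]
    have hκB : ∀ b, κ b ∈ B := by
      intro b
      have h1 : κ b = Bᶜᶜ.orderEmbOfFin hBccc b := by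
        rw [hκ]
        exact finSumEquivOfFinset_inr _ _ _
      have h2 := Finset.orderEmbOfFin_mem Bᶜᶜ hBccc b
      rw [← h1, compl_compl] at h2
      exact h2
    have hκi : Function.Injective κ := by
      intro b b' h
      rw [hκ] at h
      exact Sum.inr_injective ((finSumEquivOfFinset hBcc hBccc).injective h)
    -- independence over the functions of `x`
    have hsum : AlgebraicIndependent ℂ (Sum.elim (fun b : Fin r => z (Sum.inr (κ b)))
        (fun j : {c // c ∈ S} => z j.1)) := by
      have h1 : Function.Injective (fun c : Fin r ⊕ {c // c ∈ S} =>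
          (⟨Sum.elim (fun b => Sum.inr (κ b)) (fun j => j.1) c, by
            rcases c with b | j
            · rw [hJ]
              exact Finset.mem_coe.2 (Finset.mem_union_right _
                (Finset.mem_image_of_mem _ (hκB b)))
            · rw [hJ]
              exact Finset.mem_coe.2 (Finset.mem_union_left _ j.2)⟩ :
            ↥(J : Set (Fin n ⊕ Fin n)))) := by
        rintro (b | ⟨j, hj⟩) (b' | ⟨j', hj'⟩) h
        · have h2 := congrArg Subtype.val h
          rw [hκi (Sum.inr_injective h2)]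
        · have h2 := congrArg Subtype.val h
          obtain ⟨l, -, rfl⟩ := (hmemS _).1 hj'
          exact absurd h2 (by simp)
        · have h2 := congrArg Subtype.val h
          obtain ⟨l, -, rfl⟩ := (hmemS _).1 hj
          exact absurd h2 (by simp)
        · have h2 : j = j' := congrArg Subtype.val h
          subst h2
          rfl
      have h2 := AlgebraicIndependent.comp hBT _ h1
      convert h2 using 1
      funext c
      rcases c with b | j
      · rfl
      · rfl
    have hy := (AlgebraicIndependent.sumElim_iff.1 hsum).2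
    have hrange : range (fun j : {c // c ∈ S} => z j.1) = z '' (S : Set _) := by
      ext a
      constructor
      · rintro ⟨j, rfl⟩
        exact ⟨j.1, j.2, rfl⟩
      · rintro ⟨c, hc, rfl⟩
        exact ⟨⟨c, hc⟩, rfl⟩
    rw [hrange] at hy
    intro g hg m
    obtain ⟨ρ, hρ⟩ : ∃ ρ : MvPolynomial (Fin n) ℂ →+*
        (MvPolynomial (Fin n ⊕ Fin n) ℂ ⧸ P),
        ρ = (Ideal.Quotient.mk P).comp (φ : _ →+* _) := ⟨_, rfl⟩
    have hρ' : ∀ G, ρ G = aeval z (φ G) := by
      intro G
      rw [hρ, haev]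
      rfl
    have hmem : ∀ G, IsAlgebraic (Algebra.adjoin ℂ (z '' (S : Set _))) (ρ G) := by
      intro G
      have h1 : (aeval z) (φ G) ∈ Algebra.adjoin ℂ
          (z '' range (Sum.inl : Fin n → Fin n ⊕ Fin n)) := by
        rw [hφ, aeval_rename, ← range_comp, Algebra.adjoin_range_eq_range_aeval]
        exact ⟨G, rfl⟩
      rw [hρ']
      refine IsAlgebraic.adjoin_of_forall_isAlgebraic (R := ℂ)
        (s := z '' range (Sum.inl : Fin n → Fin n ⊕ Fin n)) ?_
        (isAlgebraic_algebraMap (⟨_, h1⟩ : Algebra.adjoin ℂ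
          (z '' range (Sum.inl : Fin n → Fin n ⊕ Fin n))))
      rintro _ ⟨⟨_, ⟨j, rfl⟩, rfl⟩, -⟩
      exact halgx j
    have h3 : eval₂ ρ (fun b : Fin r => z (Sum.inr (κ b))) g = Ideal.Quotient.mk P (yev κ g) := by
      unfold yev
      rw [coe_eval₂Hom, hom_eval₂, hρ, hz, hφ]
    have h4 := coeff_of_indep' _ hy ρ hmem g
      (h3.trans (Ideal.Quotient.eq_zero_iff_mem.2 hg)) m
    rw [← haev0, ← hφ, ← hρ']
    exact h4
  · -- the second property
    intro κ hκ _ i
    by_cases hik : ∃ b, κ b = i
    · obtain ⟨b, rfl⟩ := hik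
      refine ⟨Polynomial.X - Polynomial.C (X b), ⟨1, 0, ?_⟩, ?_⟩
      · rw [Polynomial.coeff_sub, Polynomial.coeff_X_one,
          Polynomial.coeff_C_of_ne_zero one_ne_zero, sub_zero, coeff_zero_one, map_one]
        intro h
        exact hP.ne_top ((Ideal.eq_top_iff_one _).2 h)
      · rw [Polynomial.eval₂_sub, Polynomial.eval₂_X, Polynomial.eval₂_C, yev, coe_eval₂Hom,
          eval₂_X, sub_self]
        exact P.zero_mem
    · push Not at hik
      have hinj := nm6_inj (K := L) hκ hik
      obtain ⟨J, hJ⟩ : ∃ J : Finset (Fin n ⊕ Fin n),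
          J = Finset.univ.image (nm6 L κ i) := ⟨_, rfl⟩
      have hJc : J.card = n + 1 := by
        rw [hJ, Finset.card_image_of_injective _ hinj, Finset.card_univ, Fintype.card_option,
          Fintype.card_sum, Fintype.card_fin, Fintype.card_coe, hLc]
        omega
      obtain ⟨f, hf1, hf2, hf3⟩ := hK2 J hJc
      obtain ⟨f', rfl⟩ := exists_rename_eq_of_vars_subset_range f (nm6 L κ i) hinj (by
        intro c hc
        have hc' := hf3 hc
        rw [hJ, Finset.mem_image] at hc'
        obtain ⟨d, -, hd⟩ := hc'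
        exact ⟨d, hd⟩)
      have hf0 : f' ≠ 0 := by
        rintro rfl
        exact hf2 (map_zero _)
      refine ⟨tw r L f', ?_, ?_⟩
      · obtain ⟨a, m, c, hc, hab⟩ := tw_coeff (r := r) L hf0
        refine ⟨a, m, ?_⟩
        rw [hab]
        intro h
        apply hc
        have h1 := hLi (rename Subtype.val c) (by
          refine (vars_rename _ _).trans ?_
          intro j hj
          obtain ⟨d, -, rfl⟩ := Finset.mem_image.1 hj
          exact d.2) h
        exact rename_injective _ Subtype.val_injective (h1.trans (map_zero _).symm)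
      · rw [tw_eval]
        exact hf1

end Pool.Agent.K3h23.UG
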