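import Mathlib
import Pool.Agent.K3h53.UG.Stm4
import Pool.Agent.K3h22.EX.Alg
import Pool.Agent.K3h30.EX.Model

/-! Brick `ALG` of the project UG (helper53, MP_209724_lc): algebraic model of the function field
of a variety over a subring, written by helper23.  The first part adapts
`Pool.Agent.K3h30.EX.t_MODEL` (helper30) and `Pool.Agent.K3h22.EX.vanish`, `nonvanish` (helper22)
to base rings that are not integrally closed. -/

set_option autoImplicit false

namespace Pool.Agent.K3h23.UG

open Polynomial IntermediateField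

/-- degree of the polynomial `p (c X)` -/
theorem comp_scale {F : Type} [Field F] (p : F[X]) (c : F) (hc : c ≠ 0) :
    (p.comp (C c * X)).degree = p.degree := by
  by_cases hp : p = 0
  · simp [hp]
  have h1 : (C c * X : F[X]).natDegree = 1 := natDegree_C_mul_X c hc
  have h2 : p.comp (C c * X) ≠ 0 := by
    intro h
    rcases (comp_eq_zero_iff.1 h) with h3 | ⟨-, h3⟩
    · exact hp h3
    · rw [h3] at h1
      simp at h1
  rw [degree_eq_natDegree h2, degree_eq_natDegree hp, natDegree_comp, h1, mul_one]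

/-- a primitive element of finitely many algebraic elements, with denominators -/
theorem model {A K κ : Type} [CommRing A] [IsDomain A] [Field K] [CharZero K] [Algebra A K]
    [Finite κ] (hinj : Function.Injective (algebraMap A K)) (y : κ → K)
    (hy : ∀ j, IsAlgebraic A (y j)) :
    ∃ (θ : K) (f : A[X]) (D Δ : A) (N : κ → A[X]) (U W : A[X]), f.Monic ∧ aeval θ f = 0 ∧
      (∀ p : A[X], aeval θ p = 0 → f ∣ p) ∧ D ≠ 0 ∧ Δ ≠ 0 ∧
      (∀ j, algebraMap A K D * y j = aeval θ (N j)) ∧
      U * f + W * derivative f = C Δ := by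
  classical
  have : Fintype κ := Fintype.ofFinite κ
  have : FaithfulSMul A K := (faithfulSMul_iff_algebraMap_injective A K).2 hinj
  let F := FractionRing A
  let _ : Algebra F K := FractionRing.liftAlgebra A K
  have : IsScalarTower A F K := FractionRing.isScalarTower_liftAlgebra A K
  have : CharZero F := by
    refine ⟨fun m n h => ?_⟩
    have h2 := congrArg (algebraMap F K) h
    rw [map_natCast, map_natCast] at h2
    exact Nat.cast_injective h2
  have hAF : Function.Injective (algebraMap A F) := IsFractionRing.injective A F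
  -- the field generated
  have hyF : ∀ j, IsAlgebraic F (y j) := fun j => (hy j).extendScalars hAF
  let L := adjoin F (Set.range y)
  have : FiniteDimensional F L := finiteDimensional_adjoin (by
    rintro x ⟨j, rfl⟩; exact (hyF j).isIntegral)
  obtain ⟨α, hα⟩ := Field.exists_primitive_element F L
  have hαint : IsAlgebraic F α := Algebra.IsAlgebraic.isAlgebraic α
  -- every y j is a polynomial in α
  have hpol : ∀ j, ∃ p : F[X], y j = aeval (α : K) p := by
    intro j
    have h1 : (⟨y j, subset_adjoin F _ ⟨j, rfl⟩⟩ : L) ∈ (F⟮α⟯).toSubalgebra := by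
      rw [hα]; trivial
    rw [adjoin_simple_toSubalgebra_of_isAlgebraic hαint,
      Algebra.adjoin_singleton_eq_range_aeval] at h1
    obtain ⟨p, hp⟩ := h1
    refine ⟨p, ?_⟩
    have h3 := congrArg (fun x : L => algebraMap L K x) hp
    have h4 : aeval (algebraMap L K α) p = algebraMap L K (aeval α p) :=
      Polynomial.aeval_algebraMap_apply K α p
    have h5 : algebraMap L K (aeval α p) = y j := h3
    rw [← h5, ← h4]
    rfl
  have hαF : IsIntegral F (α : K) := (hαint.algebraMap (A := K)).isIntegral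
  set m : F[X] := minpoly F (α : K) with hm
  have hmmon : m.Monic := minpoly.monic hαF
  obtain ⟨d, hd, N0, hN0⟩ := Pool.Agent.K3h30.EX.clear_den (A := A) m
  have hdF : algebraMap A F d ≠ 0 := by
    rw [Ne, map_eq_zero_iff _ hAF]; exact hd
  have hN0lc : N0.leadingCoeff = d := by
    apply hAF
    rw [← leadingCoeff_map_of_injective hAF, hN0, leadingCoeff_mul, leadingCoeff_C,
      hmmon.leadingCoeff, mul_one]
  have hN0deg : N0.degree = m.degree := by
    rw [← degree_map_eq_of_injective hAF, hN0, degree_C_mul hdF]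
  have hN0ne : N0 ≠ 0 := by
    intro h
    rw [h, degree_zero] at hN0deg
    exact hmmon.ne_zero (degree_eq_bot.1 hN0deg.symm)
  have hN0α : aeval (α : K) N0 = 0 := by
    rw [← aeval_map_algebraMap F, hN0, map_mul, hm, minpoly.aeval, mul_zero]
  set f : A[X] := integralNormalization N0 with hf
  have hfmon : f.Monic := monic_integralNormalization hN0ne
  have hfdeg : f.degree = m.degree := by
    rw [← hN0deg, hf]
    exact degree_integralNormalization
  set θ : K := (α : K) * algebraMap A K d with hθ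
  have hfθ : aeval θ f = 0 := by
    have := integralNormalization_aeval_eq_zero (A := K) (f := N0) (z := (α : K)) hN0α
      (fun x hx => hinj (by rw [hx, map_zero]))
    rw [hN0lc] at this
    rw [hθ, mul_comm]
    exact this
  have hscale : ∀ q : F[X], q ≠ 0 → aeval θ q = 0 → m.degree ≤ q.degree := by
    intro q hq h0
    have h1 : aeval (α : K) (q.comp (C (algebraMap A F d) * X)) = 0 := by
      rw [aeval_comp, map_mul, aeval_C, aeval_X, ← IsScalarTower.algebraMap_apply A F K,
        mul_comm, ← hθ, h0]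
    have h2 : q.comp (C (algebraMap A F d) * X) ≠ 0 := by
      intro h
      have h3 := comp_scale q _ hdF
      rw [h, degree_zero] at h3
      exact hq (degree_eq_bot.1 h3.symm)
    rw [← comp_scale q _ hdF]
    exact minpoly.degree_le_of_ne_zero F (α : K) h2 h1
  have hmin : f.map (algebraMap A F) = minpoly F θ := by
    apply minpoly.unique F θ (hfmon.map _)
    · rw [aeval_map_algebraMap, hfθ]
    · intro q hq h0
      rw [degree_map_eq_of_injective hAF, hfdeg]
      exact hscale q hq.ne_zero h0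
  have hdvd : ∀ p : A[X], aeval θ p = 0 → f ∣ p := by
    intro p hp
    rw [← modByMonic_eq_zero_iff_dvd hfmon]
    by_contra hr
    have h1 : aeval θ (p %ₘ f) = 0 := by
      rw [aeval_modByMonic_eq_self_of_root hfθ, hp]
    have h2 : (p %ₘ f).map (algebraMap A F) ≠ 0 := by
      rw [Ne, Polynomial.map_eq_zero_iff hAF]; exact hr
    have h3 := hscale _ h2 (by rw [aeval_map_algebraMap, h1])
    rw [degree_map_eq_of_injective hAF] at h3
    have h4 := degree_modByMonic_lt p hfmon
    rw [hfdeg] at h4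
    exact absurd h3 (not_le.2 h4)
  have hpolθ : ∀ j, ∃ p : F[X], y j = aeval θ p := by
    intro j
    obtain ⟨p, hp⟩ := hpol j
    refine ⟨p.comp (C (algebraMap A F d)⁻¹ * X), ?_⟩
    rw [aeval_comp, hp]
    congr 1
    rw [map_mul, aeval_C, aeval_X, hθ, mul_comm (α : K), ← mul_assoc,
      IsScalarTower.algebraMap_apply A F K, ← map_mul, inv_mul_cancel₀ hdF, map_one, one_mul]
  choose P hP using hpolθ
  have hclear := fun j => Pool.Agent.K3h30.EX.clear_den (A := A) (P j)
  choose b hb N hN using hclear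
  have hθF : IsIntegral F θ := ⟨f.map (algebraMap A F), hfmon.map _, by
    rw [← aeval_def, aeval_map_algebraMap, hfθ]⟩
  have hsep : (f.map (algebraMap A F)).Separable := by
    rw [hmin]
    exact (minpoly.irreducible hθF).separable
  obtain ⟨u, w, huw⟩ := hsep
  obtain ⟨b1, hb1, U, hU⟩ := Pool.Agent.K3h30.EX.clear_den (A := A) u
  obtain ⟨b2, hb2, W, hW⟩ := Pool.Agent.K3h30.EX.clear_den (A := A) w
  refine ⟨θ, f, ∏ j, b j, b1 * b2, fun j => C (∏ i ∈ Finset.univ.erase j, b i) * N j,
    C b2 * U, C b1 * W, hfmon, hfθ, hdvd, ?_, mul_ne_zero hb1 hb2, ?_, ?_⟩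
  · rw [Finset.prod_ne_zero_iff]; exact fun j _ => hb j
  · intro j
    rw [map_mul, aeval_C, ← Finset.mul_prod_erase Finset.univ b (Finset.mem_univ j), map_mul,
      mul_comm (algebraMap A K (b j)), mul_assoc]
    congr 1
    have h1 : aeval θ (N j) = aeval θ ((N j).map (algebraMap A F)) := by
      rw [Polynomial.aeval_map_algebraMap]
    rw [h1, hN, map_mul, aeval_C, ← hP, ← IsScalarTower.algebraMap_apply A F K]
  · apply Polynomial.map_injective (algebraMap A F) hAF
    rw [Polynomial.map_add, Polynomial.map_mul, Polynomial.map_mul, Polynomial.map_mul,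
      Polynomial.map_mul, Polynomial.map_C, Polynomial.map_C, Polynomial.map_C,
      ← Polynomial.derivative_map, hU, hW, map_mul, map_mul]
    have h6 : C (algebraMap A F b2) * (C (algebraMap A F b1) * u) * map (algebraMap A F) f +
        C (algebraMap A F b1) * (C (algebraMap A F b2) * w) *
          derivative (map (algebraMap A F) f)
        = C (algebraMap A F b1) * C (algebraMap A F b2) * (u * map (algebraMap A F) f +
          w * derivative (map (algebraMap A F) f)) := by ring
    rw [h6, huw, mul_one]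

/-- the specialised point is on the variety -/
theorem vanish {σ A K : Type} [CommRing A] [Field K] [Algebra A K]
    (ψ : MvPolynomial σ ℂ →+* K) (a0 : ℂ →+* A)
    (hψ : ∀ c, ψ (MvPolynomial.C c) = algebraMap A K (a0 c))
    (θ : K) (f : A[X]) (hdvd : ∀ p : A[X], aeval θ p = 0 → f ∣ p) (D : A) (Gv : σ → A[X])
    (hG : ∀ v, algebraMap A K D * ψ (MvPolynomial.X v) = aeval θ (Gv v))
    (F : MvPolynomial σ ℂ) (hF : ψ F = 0) (χ : A →+* ℂ) (t : ℂ) (q : σ → ℂ)
    (h1 : ∀ c, χ (a0 c) = c) (h2 : ∀ v, χ D * q v = ((Gv v).map χ).eval t) (hD : χ D ≠ 0)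
    (ht : (f.map χ).eval t = 0) : MvPolynomial.eval q F = 0 := by
  obtain ⟨M, G, h3, h4⟩ := Pool.Agent.K3h22.EX.rep ψ a0 hψ θ D Gv hG F
  rw [hF, mul_zero] at h3
  obtain ⟨G', hG'⟩ := hdvd G h3.symm
  have h5 := h4 χ t q h1 h2
  rw [hG', Polynomial.map_mul, Polynomial.eval_mul, ht, zero_mul] at h5
  exact (mul_eq_zero.1 h5).resolve_left (pow_ne_zero _ hD)

/-- nonvanishing at the specialised points -/
theorem nonvanish {σ A K : Type} [CommRing A] [IsDomain A] [Field K]
    [Algebra A K] (hinj : Function.Injective (algebraMap A K))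
    (ψ : MvPolynomial σ ℂ →+* K) (a0 : ℂ →+* A)
    (hψ : ∀ c, ψ (MvPolynomial.C c) = algebraMap A K (a0 c))
    (θ : K) (f : A[X]) (hmon : f.Monic) (hfθ : aeval θ f = 0)
    (hdvd : ∀ p : A[X], aeval θ p = 0 → f ∣ p) (D : A) (hD0 : D ≠ 0) (Gv : σ → A[X])
    (hG : ∀ v, algebraMap A K D * ψ (MvPolynomial.X v) = aeval θ (Gv v))
    (F : MvPolynomial σ ℂ) (hF : ψ F ≠ 0) :
    ∃ g0 : A, g0 ≠ 0 ∧ ∀ (χ : A →+* ℂ) (t : ℂ) (q : σ → ℂ),
      (∀ c, χ (a0 c) = c) → (∀ v, χ D * q v = ((Gv v).map χ).eval t) →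
      (f.map χ).eval t = 0 → χ g0 ≠ 0 → MvPolynomial.eval q F ≠ 0 := by
  obtain ⟨M, G, h3, h4⟩ := Pool.Agent.K3h22.EX.rep ψ a0 hψ θ D Gv hG F
  have hθ : IsIntegral A θ := ⟨f, hmon, by rwa [← aeval_def]⟩
  have htf : Module.IsTorsionFree A K := Module.isTorsionFree_iff_algebraMap_injective.2 hinj
  have hne : Polynomial.aeval θ G ≠ 0 := by
    rw [← h3]
    exact mul_ne_zero (pow_ne_zero _ ((map_ne_zero_iff _ hinj).2 hD0)) hF
  have hint : IsIntegral A (Polynomial.aeval θ G) := by
    refine IsIntegral.of_mem_of_fg (Algebra.adjoin A {θ}) hθ.fg_adjoin_singleton _ ?_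
    exact Polynomial.aeval_mem_adjoin_singleton A θ
  have : Nontrivial A := inferInstance
  obtain ⟨h, hh0, hh⟩ := hint.isAlgebraic.exists_nonzero_coeff_and_aeval_eq_zero
    (mem_nonZeroDivisors_of_ne_zero hne)
  refine ⟨h.coeff 0, hh0, fun χ t q h1 h2 ht hg0 h0 => hg0 ?_⟩
  have h5 := h4 χ t q h1 h2
  rw [h0, mul_zero] at h5
  have h6 : Polynomial.aeval θ (h.comp G) = 0 := by
    rw [Polynomial.aeval_comp]
    exact hh
  obtain ⟨G', hG'⟩ := hdvd _ h6
  have h7 : ((h.comp G).map χ).eval t = 0 := by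
    rw [hG', Polynomial.map_mul, Polynomial.eval_mul, ht, zero_mul]
  rw [Polynomial.map_comp, Polynomial.eval_comp, ← h5, ← Polynomial.coeff_zero_eq_eval_zero,
    Polynomial.coeff_map] at h7
  exact h7

/-- division by a power of the variable -/
theorem rowpoly {A Q : Type} [CommRing A] [IsDomain A] [CommRing Q] [IsDomain Q] (e : A →+* Q)
    (x : Q) (hx : x ≠ 0) (h : ∃ g : A[X], g ≠ 0 ∧ g.eval₂ e x = 0) :
    ∃ g : A[X], g.coeff 0 ≠ 0 ∧ g.eval₂ e x = 0 := by
  obtain ⟨g, hg, hgP⟩ := h
  obtain ⟨q, hq, hq'⟩ := Polynomial.exists_eq_pow_rootMultiplicity_mul_and_not_dvd g hg 0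
  rw [Polynomial.C_0, sub_zero] at hq hq'
  refine ⟨q, ?_, ?_⟩
  · intro h0
    exact hq' (Polynomial.X_dvd_iff.2 h0)
  · rw [hq, Polynomial.eval₂_mul, Polynomial.eval₂_pow, Polynomial.eval₂_X] at hgP
    rcases mul_eq_zero.1 hgP with h1 | h1
    · exact absurd (eq_zero_of_pow_eq_zero h1) hx
    · exact h1

theorem t_ALG : Pool.Agent.K3h53.UG.S_ALG := by
  intro n P hP A _ _ _ em hem xA hxA hy0 hyalg H hH
  classical
  have := hP
  let Q := MvPolynomial (Fin n ⊕ Fin n) ℂ ⧸ P
  let K := FractionRing Q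
  let ψ : MvPolynomial (Fin n ⊕ Fin n) ℂ →+* K :=
    (algebraMap Q K).comp (Ideal.Quotient.mk P)
  have hQK : Function.Injective (algebraMap Q K) := IsFractionRing.injective Q K
  have hψ0 : ∀ F, ψ F = 0 ↔ F ∈ P := by
    intro F
    rw [← Ideal.Quotient.eq_zero_iff_mem]
    exact map_eq_zero_iff _ hQK
  let _ : Algebra A K := ((algebraMap Q K).comp (em : A →+* Q)).toAlgebra
  have halg : ∀ a : A, algebraMap A K a = algebraMap Q K (em a) := fun g => rfl
  have hinj : Function.Injective (algebraMap A K) := fun a b h => hem (hQK h)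
  have : CharZero K := charZero_of_injective_ringHom (f := ψ.comp MvPolynomial.C)
    (RingHom.injective _)
  have haev : ∀ (g : A[X]) (x : Q), aeval (algebraMap Q K x) g =
      algebraMap Q K (g.eval₂ (em : A →+* Q) x) := by
    intro g x
    rw [aeval_def, hom_eval₂]
    rfl
  have hy : ∀ j : Fin n, IsAlgebraic A (ψ (MvPolynomial.X (Sum.inr j))) := by
    intro j
    obtain ⟨g, hg, hg0⟩ := hyalg j
    refine ⟨g, hg, ?_⟩
    change aeval (algebraMap Q K (Ideal.Quotient.mk P (MvPolynomial.X (Sum.inr j)))) g = 0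
    rw [haev, hg0, map_zero]
  obtain ⟨θ, f, D, Δ, N, U, W, hmon, hfθ, hdvd, hD, hΔ, hN, hUW⟩ :=
    model hinj (fun j => ψ (MvPolynomial.X (Sum.inr j))) hy
  have hrow := fun j : Fin n => rowpoly (em : A →+* Q)
    (Ideal.Quotient.mk P (MvPolynomial.X (Sum.inr j)))
    (fun h => hy0 j (Ideal.Quotient.eq_zero_iff_mem.1 h)) (hyalg j)
  choose g hgc hg0 using hrow
  let Gv : Fin n ⊕ Fin n → A[X] := Sum.elim (fun i => C (D * xA i)) N
  have hG : ∀ v, algebraMap A K D * ψ (MvPolynomial.X v) = aeval θ (Gv v) := by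
    rintro (i | i)
    · change _ = aeval θ (C (D * xA i))
      rw [aeval_C, map_mul, halg (xA i), hxA i]
      rfl
    · exact hN i
  have hψC : ∀ c : ℂ, ψ (MvPolynomial.C c) = algebraMap A K (algebraMap ℂ A c) := by
    intro c
    rw [halg, AlgHom.commutes]
    rfl
  obtain ⟨g0, hg0', hg0''⟩ := nonvanish hinj ψ (algebraMap ℂ A) hψC θ f hmon hfθ hdvd D hD Gv hG H
    (fun h => hH ((hψ0 _).1 h))
  have hdeg : 0 < f.natDegree := by
    rcases Nat.eq_zero_or_pos f.natDegree with h | h
    · exfalso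
      have h1 : f = 1 := by
        rw [eq_C_of_natDegree_eq_zero h, ← Polynomial.C_1]
        congr 1
        have h2 := hmon.coeff_natDegree
        rwa [h] at h2
      rw [h1, map_one] at hfθ
      exact one_ne_zero hfθ
    · exact h
  refine ⟨f, U, W, D, Δ, g0, N, g, hmon, hdeg, hD, hΔ, hg0', hUW, hgc, ?_⟩
  intro χ t Y hY hχD ht
  have hc : ∀ c : ℂ, (χ : A →+* ℂ) (algebraMap ℂ A c) = c := fun c => χ.commutes c
  have hev : ∀ p : A[X], aeval θ p = 0 → (p.map (χ : A →+* ℂ)).eval t = 0 := by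
    intro p hp
    obtain ⟨p', hp'⟩ := hdvd p hp
    rw [hp', Polynomial.map_mul, eval_mul, ht, zero_mul]
  have hq : ∀ v, (χ : A →+* ℂ) D * (Sum.elim (fun i => χ (xA i)) Y : Fin n ⊕ Fin n → ℂ) v =
      ((Gv v).map (χ : A →+* ℂ)).eval t := by
    rintro (i | i)
    · change χ D * χ (xA i) = ((C (D * xA i)).map (χ : A →+* ℂ)).eval t
      rw [Polynomial.map_C, eval_C, map_mul]
      rfl
    · exact hY i
  refine ⟨fun G hGP => ?_, fun i => ?_, fun i a ha => ?_, fun h0 => ?_⟩
  · exact vanish ψ (algebraMap ℂ A) hψC θ f hdvd D Gv hG G ((hψ0 G).2 hGP) χ t _ hc hq hχD ht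
  · have h1 : aeval θ ((scaleRoots (g i) D).comp (N i)) = 0 := by
      rw [aeval_comp, ← hN i, aeval_def, scaleRoots_eval₂_mul]
      have h2 : eval₂ (algebraMap A K) (ψ (MvPolynomial.X (Sum.inr i))) (g i) =
          algebraMap Q K ((g i).eval₂ (em : A →+* Q)
            (Ideal.Quotient.mk P (MvPolynomial.X (Sum.inr i)))) := haev (g i) _
      rw [h2, hg0, map_zero, mul_zero]
    have h3 := hev _ h1
    rw [Polynomial.map_comp, eval_comp, ← hY i, eval_map] at h3
    have h4 := scaleRoots_eval₂_mul (p := g i) (χ : A →+* ℂ) (Y i) D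
    have h5 : ((χ : A →+* ℂ) D) ^ (g i).natDegree * eval₂ (χ : A →+* ℂ) (Y i) (g i) = 0 :=
      h4.symm.trans h3
    rw [eval_map]
    exact (mul_eq_zero.1 h5).resolve_left (pow_ne_zero _ hχD)
  · have h1 : aeval θ (C (D * a) - N i) = 0 := by
      rw [map_sub, aeval_C, map_mul, ← hN i, halg a, ha]
      exact sub_self _
    have h3 := hev _ h1
    rw [Polynomial.map_sub, Polynomial.map_C, eval_sub, eval_C, ← hY i, map_mul] at h3
    have h4 : χ D * χ a = χ D * Y i := sub_eq_zero.1 h3
    exact (mul_left_cancel₀ hχD h4).symm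
  · exact hg0'' χ t _ hc hq ht h0

end Pool.Agent.K3h23.UG
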