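import Pool.Agent.K3h53.UG.Stm8
import Pool.Agent.K3h23.UG.Fib6

/-!
# Algebraic independence over the functions of `x` (brick FIBR for helper53)
-/

set_option autoImplicit false
set_option linter.style.haveILetI false

namespace Pool.Agent.K3h23.UG

open MvPolynomial Set Pool.Agent.K3h53.UG

/-- the names of the variables: the `y_(κ b)` and the `x_j`, `j ∈ L` -/
def nm8 {n r : ℕ} (L : Finset (Fin n)) (κ : Fin r → Fin n) :
    (Fin r ⊕ {j : Fin n // j ∈ L}) → Fin n ⊕ Fin n
  | Sum.inl b => Sum.inr (κ b)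
  | Sum.inr j => Sum.inl j.1

theorem nm8_inj {n r : ℕ} {L : Finset (Fin n)} {κ : Fin r → Fin n}
    (hκ : Function.Injective κ) : Function.Injective (nm8 L κ) := by
  rintro (a | ⟨a, ha⟩) (b | ⟨b, hb⟩) hab
  · have : a = b := hκ (Sum.inr_injective hab)
    rw [this]
  · exact absurd hab (by simp [nm8])
  · exact absurd hab (by simp [nm8])
  · have : a = b := Sum.inl_injective hab
    subst this
    rfl

/-- the polynomial in `y` over `ℂ[x]` -/
noncomputable def tw8 {n : ℕ} (r : ℕ) (L : Finset (Fin n)) :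
    MvPolynomial (Fin r ⊕ {j : Fin n // j ∈ L}) ℂ →+*
      MvPolynomial (Fin r) (MvPolynomial (Fin n) ℂ) :=
  (MvPolynomial.map (rename (Subtype.val : {j : Fin n // j ∈ L} → Fin n)).toRingHom).comp
    (sumAlgEquiv ℂ (Fin r) {j : Fin n // j ∈ L}).toRingHom

theorem tw8_eval {n r : ℕ} (L : Finset (Fin n)) (κ : Fin r → Fin n)
    (f : MvPolynomial (Fin r ⊕ {j : Fin n // j ∈ L}) ℂ) :
    yev κ (tw8 r L f) = rename (nm8 L κ) f := by
  have h : (yev κ).comp (tw8 r L) =
      ((rename (nm8 L κ) : _ →ₐ[ℂ] MvPolynomial (Fin n ⊕ Fin n) ℂ) : _ →+* _) := by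
    refine MvPolynomial.ringHom_ext (fun c => ?_) ?_
    · simp [tw8, yev]
    · rintro (b | ⟨j, hj⟩)
      · simp [tw8, nm8, yev]
      · simp [tw8, nm8, yev]
  exact congrArg (fun g => g f) h

theorem tw8_coeff {n r : ℕ} (L : Finset (Fin n))
    {f : MvPolynomial (Fin r ⊕ {j : Fin n // j ∈ L}) ℂ} (hf : f ≠ 0) :
    ∃ (m : Fin r →₀ ℕ) (c : MvPolynomial {j : Fin n // j ∈ L} ℂ), c ≠ 0 ∧
      coeff m (tw8 r L f) = rename Subtype.val c := by
  have h2 : sumAlgEquiv ℂ (Fin r) {j : Fin n // j ∈ L} f ≠ 0 := by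
    intro h
    exact hf ((map_eq_zero_iff _ (AlgEquiv.injective _)).1 h)
  obtain ⟨m, hm⟩ := MvPolynomial.ne_zero_iff.1 h2
  refine ⟨m, _, hm, ?_⟩
  simp [tw8, MvPolynomial.coeff_map]

theorem t_FIBR : S_FIBR := by
  classical
  intro n s r P hP L κ hκi hLc hLi hL2
  haveI := hP
  constructor
  · -- independence of the coordinates
    intro hI f hf hfP
    obtain ⟨f', rfl⟩ := exists_rename_eq_of_vars_subset_range f (nm8 L κ) (nm8_inj hκi) (by
      intro c hc
      have hc' := hf hc
      rw [Finset.mem_union, Finset.mem_image, Finset.mem_image] at hc'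
      rcases hc' with ⟨j, hj, rfl⟩ | ⟨b, -, rfl⟩
      · exact ⟨Sum.inr ⟨j, hj⟩, rfl⟩
      · exact ⟨Sum.inl b, rfl⟩)
    by_contra hne
    have hf0 : f' ≠ 0 := by
      rintro rfl
      exact hne (map_zero _)
    obtain ⟨m, c, hc, hmc⟩ := tw8_coeff (r := r) L hf0
    have h1 := hI (tw8 r L f') (by rw [tw8_eval]; exact hfP) m
    rw [hmc] at h1
    apply hc
    have h2 := hLi (rename Subtype.val c) (by
      refine (vars_rename _ _).trans ?_
      intro j hj
      obtain ⟨d, -, rfl⟩ := Finset.mem_image.1 hj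
      exact d.2) h1
    exact rename_injective _ Subtype.val_injective (h2.trans (map_zero _).symm)
  · intro hJi
    obtain ⟨φ, hφ⟩ : ∃ φ : MvPolynomial (Fin n) ℂ →ₐ[ℂ]
        MvPolynomial (Fin n ⊕ Fin n) ℂ, φ = rename Sum.inl := ⟨_, rfl⟩
    -- the coordinate ring
    obtain ⟨z, hz⟩ : ∃ z : Fin n ⊕ Fin n →
        (MvPolynomial (Fin n ⊕ Fin n) ℂ ⧸ P), z = fun c => Ideal.Quotient.mk P (X c) :=
      ⟨_, rfl⟩
    have haev : ∀ f, aeval z f = Ideal.Quotient.mk P f := by
      intro f
      have h1 : (aeval z : _ →ₐ[ℂ] _) = Ideal.Quotient.mkₐ ℂ P := by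
        refine MvPolynomial.algHom_ext fun c => ?_
        rw [aeval_X, hz]
        rfl
      rw [h1]
      rfl
    have haev0 : ∀ f, aeval z f = 0 ↔ f ∈ P := by
      intro f
      rw [haev, Ideal.Quotient.eq_zero_iff_mem]
    -- independence
    have hind : ∀ J : Finset (Fin n ⊕ Fin n),
        AlgebraicIndepOn ℂ z (J : Set _) ↔ ∀ f : MvPolynomial (Fin n ⊕ Fin n) ℂ,
          f.vars ⊆ J → f ∈ P → f = 0 := by
      intro J
      unfold AlgebraicIndepOn
      rw [algebraicIndependent_iff]
      constructor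
      · intro h f hf hfP
        obtain ⟨g, rfl⟩ := exists_rename_eq_of_vars_subset_range f
          (Subtype.val : ↥(J : Set (Fin n ⊕ Fin n)) → _) Subtype.val_injective
          (by rw [Subtype.range_coe]; exact_mod_cast hf)
        rw [← haev0, aeval_rename] at hfP
        rw [h g hfP, map_zero]
      · intro h g hg
        have h1 : rename (Subtype.val : ↥(J : Set (Fin n ⊕ Fin n)) → _) g = 0 := by
          refine h _ ?_ ?_
          · refine (vars_rename _ _).trans ?_
            intro c hc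
            rw [Finset.mem_image] at hc
            obtain ⟨d, -, rfl⟩ := hc
            exact d.2
          · rw [← haev0, aeval_rename]
            exact hg
        exact (rename_injective _ Subtype.val_injective) (h1.trans (map_zero _).symm)
    -- the coordinates `x_j`, `j ∈ L`
    obtain ⟨S, hS⟩ : ∃ S : Finset (Fin n ⊕ Fin n), S = L.image Sum.inl := ⟨_, rfl⟩
    have hmemS : ∀ c, c ∈ S ↔ ∃ j, j ∈ L ∧ c = Sum.inl j := by
      intro c
      rw [hS, Finset.mem_image]
      constructor
      · rintro ⟨j, hj, rfl⟩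
        exact ⟨j, hj, rfl⟩
      · rintro ⟨j, hj, rfl⟩
        exact ⟨j, hj, rfl⟩
    have hinl : ∀ G : MvPolynomial (Fin n) ℂ, (φ G).vars ⊆ S → G.vars ⊆ L := by
      intro G hG j hj
      have h1 : (Sum.inl j : Fin n ⊕ Fin n) ∈ (φ G).vars := by
        rw [hφ]
        rw [mem_vars_iff_degreeOf_ne_zero] at hj ⊢
        rwa [degreeOf_rename_of_injective Sum.inl_injective]
      obtain ⟨j', hj', h2⟩ := (hmemS _).1 (hG h1)
      rwa [Sum.inl_injective h2]
    have hSind : AlgebraicIndepOn ℂ z (S : Set _) := by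
      rw [hind]
      intro f hf hfP
      obtain ⟨G, rfl⟩ := exists_rename_eq_of_vars_subset_range f
        (Sum.inl : Fin n → Fin n ⊕ Fin n) Sum.inl_injective (by
          intro c hc
          obtain ⟨j, -, rfl⟩ := (hmemS c).1 (hf hc)
          exact ⟨j, rfl⟩)
      rw [← hφ] at hf
      rw [hLi G (hinl G hf) hfP, map_zero]
    have halgx : ∀ j, IsAlgebraic (Algebra.adjoin ℂ (z '' (S : Set _))) (z (Sum.inl j)) := by
      intro j
      by_cases hj : j ∈ L
      · exact isAlgebraic_algebraMap (⟨z (Sum.inl j), Algebra.subset_adjoin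
          ⟨Sum.inl j, (hmemS _).2 ⟨j, hj, rfl⟩, rfl⟩⟩ : Algebra.adjoin ℂ (z '' (S : Set _)))
      · by_contra htr
        have h1 := AlgebraicIndepOn.insert hSind htr
        have h2 : AlgebraicIndepOn ℂ z ((insert (Sum.inl j) S : Finset _) : Set _) := by
          rw [Finset.coe_insert]
          exact h1
        rw [hind] at h2
        obtain ⟨G, hG1, hG2, hG3⟩ := hL2 (insert j L) (by
          rw [Finset.card_insert_of_notMem hj, hLc])
        have h3 : φ G = 0 := by
          refine h2 _ ?_ (by rw [hφ]; exact hG1)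
          rw [hφ]
          refine (vars_rename _ _).trans ?_
          intro c hc
          obtain ⟨j', hj', rfl⟩ := Finset.mem_image.1 hc
          rw [Finset.mem_insert]
          rcases Finset.mem_insert.1 (hG3 hj') with h | h
          · left; rw [h]
          · right
            exact (hmemS _).2 ⟨j', h, rfl⟩
        rw [hφ] at h3
        exact hG2 (rename_injective _ Sum.inl_injective (h3.trans (map_zero _).symm))
    -- independence over the functions of `x`
    obtain ⟨J, hJ⟩ : ∃ J : Finset (Fin n ⊕ Fin n),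
        J = L.image Sum.inl ∪ Finset.univ.image fun b => Sum.inr (κ b) := ⟨_, rfl⟩
    rw [← hJ] at hJi
    have hBT := (hind J).2 hJi
    have hsum : AlgebraicIndependent ℂ (Sum.elim (fun b : Fin r => z (Sum.inr (κ b)))
        (fun j : {c // c ∈ S} => z j.1)) := by
      have h1 : Function.Injective (fun c : Fin r ⊕ {c // c ∈ S} =>
          (⟨Sum.elim (fun b => Sum.inr (κ b)) (fun j => j.1) c, by
            rcases c with b | j
            · rw [hJ]
              exact Finset.mem_coe.2 (Finset.mem_union_right _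
                (Finset.mem_image_of_mem _ (Finset.mem_univ b)))
            · rw [hJ, ← hS]
              exact Finset.mem_coe.2 (Finset.mem_union_left _ j.2)⟩ :
            ↥(J : Set (Fin n ⊕ Fin n)))) := by
        rintro (b | ⟨j, hj⟩) (b' | ⟨j', hj'⟩) h
        · have h2 := congrArg Subtype.val h
          rw [hκi (Sum.inr_injective h2)]
        · have h2 := congrArg Subtype.val h
          obtain ⟨l, -, rfl⟩ := (hmemS _).1 hj'
          exact absurd h2 (by simp)
        · have h2 := congrArg Subtype.val h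
          obtain ⟨l, -, rfl⟩ := (hmemS _).1 hj
          exact absurd h2 (by simp)
        · have h2 : j = j' := congrArg Subtype.val h
          subst h2
          rfl
      have h2 := AlgebraicIndependent.comp hBT _ h1
      convert h2 using 1
      funext c
      rcases c with b | j
      · rfl
      · rfl
    have hy := (AlgebraicIndependent.sumElim_iff.1 hsum).2
    have hrange : range (fun j : {c // c ∈ S} => z j.1) = z '' (S : Set _) := by
      ext a
      constructor
      · rintro ⟨j, rfl⟩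
        exact ⟨j.1, j.2, rfl⟩
      · rintro ⟨c, hc, rfl⟩
        exact ⟨⟨c, hc⟩, rfl⟩
    rw [hrange] at hy
    intro g hg m
    obtain ⟨ρ, hρ⟩ : ∃ ρ : MvPolynomial (Fin n) ℂ →+*
        (MvPolynomial (Fin n ⊕ Fin n) ℂ ⧸ P),
        ρ = (Ideal.Quotient.mk P).comp (φ : _ →+* _) := ⟨_, rfl⟩
    have hρ' : ∀ G, ρ G = aeval z (φ G) := by
      intro G
      rw [hρ, haev]
      rfl
    have hmem : ∀ G, IsAlgebraic (Algebra.adjoin ℂ (z '' (S : Set _))) (ρ G) := by
      intro G
      have h1 : (aeval z) (φ G) ∈ Algebra.adjoin ℂ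
          (z '' range (Sum.inl : Fin n → Fin n ⊕ Fin n)) := by
        rw [hφ, aeval_rename, ← range_comp, Algebra.adjoin_range_eq_range_aeval]
        exact ⟨G, rfl⟩
      rw [hρ']
      refine IsAlgebraic.adjoin_of_forall_isAlgebraic (R := ℂ)
        (s := z '' range (Sum.inl : Fin n → Fin n ⊕ Fin n)) ?_
        (isAlgebraic_algebraMap (⟨_, h1⟩ : Algebra.adjoin ℂ
          (z '' range (Sum.inl : Fin n → Fin n ⊕ Fin n))))
      rintro _ ⟨⟨_, ⟨j, rfl⟩, rfl⟩, -⟩
      exact halgx j
    have h3 : eval₂ ρ (fun b : Fin r => z (Sum.inr (κ b))) g = Ideal.Quotient.mk P (yev κ g) := by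
      unfold yev
      rw [coe_eval₂Hom, hom_eval₂, hρ, hz, hφ]
    have h4 := coeff_of_indep' _ hy ρ hmem g
      (h3.trans (Ideal.Quotient.eq_zero_iff_mem.2 hg)) m
    rw [← haev0, ← hφ, ← hρ']
    exact h4

end Pool.Agent.K3h23.UG
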